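import Mathlib

namespace Pool.Agent.Results.MP_337ab5_co.ConvOne

open Equiv

/-- Building one word. The entries chosen so far are l and k positions remain. A chooses the
entries at odd positions (when l has even length), B the others; each new value must not occur in
l. Wins true P k l: A can force the finished word to satisfy P. Wins false P k l: B can. -/
def Wins {N : ℕ} (a : Bool) (P : List (Fin N) → Prop) : ℕ → List (Fin N) → Prop
  | 0, l => P l
  | k + 1, l =>
    if (l.length % 2 = 0 ↔ a = true) then ∃ v, v ∉ l ∧ Wins a P k (l ++ [v])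
    else ∀ v, v ∉ l → Wins a P k (l ++ [v])

/-- The words s and t are the one-line words of two permutations generating the symmetric group. -/
def Gen {N : ℕ} (s t : List (Fin N)) : Prop :=
  ∃ σ τ : Perm (Fin N), List.ofFn σ = s ∧ List.ofFn τ = t ∧ Subgroup.closure {σ, τ} = ⊤

/-- A has a winning strategy under Convention I. -/
def AWins (N : ℕ) : Prop :=
  Wins (N := N) true (fun s => Wins true (fun t => Gen s t) N []) N []

/-- B has a winning strategy under Convention I. -/
def BWins (N : ℕ) : Prop :=
  Wins (N := N) false (fun s => Wins false (fun t => ¬ Gen s t) N []) N []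

variable {N : ℕ}

lemma mono {a : Bool} {P Q : List (Fin N) → Prop} (h : ∀ l, P l → Q l) :
    ∀ k l, Wins a P k l → Wins a Q k l := by
  intro k
  induction k with
  | zero => exact h
  | succ k ih =>
    intro l
    unfold Wins
    split_ifs
    · rintro ⟨v, hv, hw⟩
      exact ⟨v, hv, ih _ hw⟩
    · intro hw v hv
      exact ih _ (hw v hv)

lemma excl {P Q : List (Fin N) → Prop} (h : ∀ l, P l → Q l → False) :
    ∀ k l, Wins true P k l → Wins false Q k l → False := by
  intro k
  induction k with
  | zero => exact h
  | succ k ih =>
    intro l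
    unfold Wins
    by_cases hl : l.length % 2 = 0
    · simp only [hl, if_true, Bool.false_eq_true, iff_false, not_true, if_false]
      rintro ⟨v, hv, hw⟩ hq
      exact ih _ hw (hq v hv)
    · simp only [hl, iff_true, if_false, Bool.false_eq_true, if_true]
      rintro hq ⟨v, hv, hw⟩
      exact ih _ (hq v hv) hw

lemma fresh (l : List (Fin N)) (h : l.length < N) : ∃ v, v ∉ l := by
  by_contra hc
  push Not at hc
  have : (Finset.univ : Finset (Fin N)) ⊆ l.toFinset := fun v _ => List.mem_toFinset.2 (hc v)
  have h1 := Finset.card_le_card this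
  have h2 := List.toFinset_card_le l
  simp at h1
  omega

lemma toPerm (l : List (Fin N)) (hn : l.Nodup) (hl : l.length = N) :
    ∃ σ : Perm (Fin N), List.ofFn σ = l := by
  let f : Fin N → Fin N := fun i => l.get (Fin.cast hl.symm i)
  have hf : Function.Injective f := by
    intro i j hij
    have := List.nodup_iff_injective_get.1 hn hij
    exact Fin.cast_injective _ this
  refine ⟨Equiv.ofBijective f (Finite.injective_iff_bijective.1 hf), ?_⟩
  apply List.ext_get (by simp [hl])
  intro i h1 h2
  simp [f]

/-- Odd N: B makes the word an even permutation. -/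
lemma odd_win (hN : N % 2 = 1) : ∀ k (l : List (Fin N)), l.Nodup → l.length + (k + 2) = N →
    Wins false (fun s => ∃ σ : Perm (Fin N), List.ofFn σ = s ∧ Perm.sign σ = 1) (k + 2) l := by
  intro k
  induction k with
  | zero =>
    intro l hn hl
    obtain ⟨a, ha⟩ := fresh l (by omega)
    obtain ⟨b, hb⟩ := fresh (l ++ [a]) (by simp; omega)
    have hb1 : b ∉ l := fun h => hb (by simp [h])
    have hab : b ≠ a := fun h => hb (by simp [h])
    have key : ∀ a b : Fin N, a ∉ l → b ∉ l → b ≠ a → ∀ v, v ∉ l ++ [a] → v = b := by
      intro a b ha hb hab v hv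
      by_contra hvb
      have hnd : (l ++ [a] ++ [b] ++ [v]).Nodup := by
        simp only [List.mem_append, List.mem_singleton, not_or] at hv
        simp only [List.nodup_append, hn, List.nodup_singleton, List.mem_singleton, forall_eq,
          List.mem_append, true_and]
        refine ⟨⟨fun x hx h => ha (h ▸ hx), ?_⟩, ?_⟩
        · rintro x (hx | rfl)
          · exact fun h => hb (h ▸ hx)
          · exact hab.symm
        · rintro x ((hx | rfl) | rfl)
          · exact fun h => hv.1 (h ▸ hx)
          · exact fun h => hv.2 h.symm
          · exact fun h => hvb h.symm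
      have := hnd.length_le_card
      simp at this
      omega
    have nd : (l ++ [a] ++ [b]).Nodup := by
      simp only [List.nodup_append, hn, List.nodup_singleton, List.mem_singleton, forall_eq,
        List.mem_append, true_and]
      refine ⟨fun x hx h => ha (h ▸ hx), ?_⟩
      rintro x (hx | rfl)
      · exact fun h => hb1 (h ▸ hx)
      · exact hab.symm
    obtain ⟨σ, hσ⟩ := toPerm _ nd (by simp; omega)
    have hσ2 : List.ofFn (swap a b * σ : Perm (Fin N)) = l ++ [b] ++ [a] := by
      have : List.ofFn (swap a b * σ : Perm (Fin N)) = (List.ofFn σ).map (swap a b) := by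
        rw [List.map_ofFn]; rfl
      rw [this, hσ]
      simp only [List.map_append, List.map_cons, List.map_nil, swap_apply_left, swap_apply_right]
      congr 2
      conv_rhs => rw [← List.map_id l]
      apply List.map_congr_left
      intro x hx
      exact swap_apply_of_ne_of_ne (fun h => ha (h ▸ hx)) (fun h => hb1 (h ▸ hx))
    have h1 : ¬ l.length % 2 = 0 := by omega
    have h2 : ∀ c : Fin N, (l ++ [c]).length % 2 = 0 := by
      intro c; simp; omega
    simp only [Wins, h1, h2, Bool.false_eq_true, iff_false, not_true, if_false, not_false_iff,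
      if_true]
    rcases Int.units_eq_one_or (Perm.sign σ) with hs | hs
    · refine ⟨a, ha, fun v hv => ?_⟩
      rw [key a b ha hb1 hab v hv]
      exact ⟨σ, hσ, hs⟩
    · refine ⟨b, hb1, fun v hv => ?_⟩
      rw [key b a hb1 ha hab.symm v hv]
      refine ⟨_, hσ2, ?_⟩
      rw [Perm.sign_mul, Perm.sign_swap hab.symm, hs]
      rfl
  | succ k ih =>
    intro l hn hl
    have step : ∀ v, v ∉ l → Wins false
        (fun s => ∃ σ : Perm (Fin N), List.ofFn σ = s ∧ Perm.sign σ = 1) (k + 2) (l ++ [v]) := by
      intro v hv
      apply ih
      · simp only [List.nodup_append, hn, List.nodup_singleton, List.mem_singleton, forall_eq,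
          true_and]
        exact fun x hx h => hv (h ▸ hx)
      · simp; omega
    rw [Wins]
    split
    · obtain ⟨v, hv⟩ := fresh l (by omega)
      exact ⟨v, hv, step v hv⟩
    · exact step

/-- The partner of a number in the pairing 0-1, 2-3, and so on. -/
def pr (n : ℕ) : ℕ := if n % 2 = 0 then n + 1 else n - 1

def Paired (l : List (Fin N)) : Prop :=
  ∀ i (h : i < l.length), ∃ h2 : pr i < l.length, (l[pr i] : ℕ) = pr l[i]

lemma even_win (hN : N % 2 = 0) : ∀ k (l : List (Fin N)), l.length % 2 = 0 → Paired l →
    Wins false Paired (2 * k) l := by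
  intro k
  induction k with
  | zero => exact fun l _ h => h
  | succ k ih =>
    intro l hl hp
    have e : 2 * (k + 1) = 2 * k + 1 + 1 := by ring
    have h2 : ∀ c : Fin N, ¬ (l ++ [c]).length % 2 = 0 := by
      intro c; simp; omega
    rw [e]
    simp only [Wins, hl, h2, Bool.false_eq_true, iff_false, not_true, if_false, not_false_iff,
      if_true]
    intro v hv
    have hw : pr v < N := by
      have := v.2
      unfold pr; split_ifs <;> omega
    refine ⟨⟨pr v, hw⟩, ?_, ih _ (by simp; omega) ?_⟩
    · simp only [List.mem_append, List.mem_singleton, not_or]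
      constructor
      · intro hm
        obtain ⟨i, hi, e1⟩ := List.getElem_of_mem hm
        obtain ⟨h3, e2⟩ := hp i hi
        apply hv
        have : l[pr i] = v := by
          apply Fin.ext
          rw [e2, e1]
          simp only [pr]
          split_ifs <;> omega
        rw [← this]
        exact List.getElem_mem _
      · intro h
        have := congrArg Fin.val h
        simp only [pr] at this
        split_ifs at this <;> omega
    · intro i hi
      simp only [List.length_append, List.length_singleton] at hi
      have h3 : pr i < (l ++ [v] ++ [(⟨pr v, hw⟩ : Fin N)]).length := by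
        simp only [List.length_append, List.length_singleton, pr]
        split_ifs <;> omega
      refine ⟨h3, ?_⟩
      rcases lt_trichotomy i l.length with h | h | h
      · obtain ⟨h4, e2⟩ := hp i h
        simp only [List.append_assoc]
        rw [List.getElem_append_left h4, List.getElem_append_left h]
        exact e2
      · have e3 : pr i = l.length + 1 := by unfold pr; split_ifs <;> omega
        subst h
        simp [e3]
      · have e3 : pr i = l.length := by unfold pr; split_ifs <;> omega
        have e4 : i = l.length + 1 := by omega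
        have : pr (pr v) = v := by unfold pr; split_ifs <;> omega
        subst e4
        simp [e3, this]

lemma bwins (h3 : 3 ≤ N) : BWins N := by
  rcases Nat.mod_two_eq_zero_or_one N with hN | hN
  · obtain ⟨k, hk⟩ : ∃ k, N = 2 * k := ⟨N / 2, by omega⟩
    have base : Wins (N := N) false Paired N [] := by
      have := even_win hN k [] rfl (fun i h => absurd h (by simp))
      rwa [← hk] at this
    have hlt : ∀ i : Fin N, pr i < N := by
      intro i
      have := i.2
      unfold pr; split_ifs <;> omega
    let π : Fin N → Fin N := fun i => ⟨pr i, hlt i⟩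
    let H : Subgroup (Perm (Fin N)) :=
      { carrier := {σ | ∀ i, σ (π i) = π (σ i)}
        one_mem' := fun _ => rfl
        mul_mem' := by
          intro a b ha hb i
          simp only [Perm.mul_apply]
          rw [hb, ha]
        inv_mem' := by
          intro a ha i
          apply a.injective
          rw [ha]
          simp }
    have mem : ∀ σ : Perm (Fin N), Paired (List.ofFn σ) → σ ∈ H := by
      intro σ hσ i
      obtain ⟨h2, e⟩ := hσ i (by simp)
      apply Fin.ext
      simpa using e
    refine mono ?_ _ _ base
    intro s hs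
    refine mono ?_ _ _ base
    rintro t ht ⟨σ, τ, rfl, rfl, hc⟩
    have : Subgroup.closure {σ, τ} ≤ H := by
      rw [Subgroup.closure_le]
      rintro x (rfl | rfl)
      · exact mem _ hs
      · exact mem _ ht
    rw [hc] at this
    have h := this (Subgroup.mem_top (swap ⟨1, by omega⟩ ⟨2, by omega⟩)) ⟨0, by omega⟩
    rw [swap_apply_of_ne_of_ne (x := (⟨0, by omega⟩ : Fin N)) (by simp) (by simp)] at h
    have e : π ⟨0, by omega⟩ = ⟨1, by omega⟩ := rfl
    rw [e, swap_apply_left] at h
    simp at h
  · obtain ⟨k, rfl⟩ : ∃ k, N = k + 2 := ⟨N - 2, by omega⟩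
    refine mono ?_ _ _ (odd_win hN k [] List.nodup_nil (by simp))
    rintro s ⟨σ, rfl, hσ⟩
    refine mono ?_ _ _ (odd_win hN k [] List.nodup_nil (by simp))
    rintro t ⟨τ, rfl, hτ⟩ ⟨σ', τ', e1, e2, hc⟩
    have e1' : σ' = σ := Equiv.ext (congrFun (List.ofFn_injective e1))
    have e2' : τ' = τ := Equiv.ext (congrFun (List.ofFn_injective e2))
    subst e1' e2'
    have : Subgroup.closure {σ', τ'} ≤ alternatingGroup (Fin (k + 2)) := by
      rw [Subgroup.closure_le]
      rintro x (rfl | rfl)
      · exact hσ
      · exact hτ
    rw [hc] at this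
    have h := this (Subgroup.mem_top (swap 0 1))
    rw [Perm.mem_alternatingGroup, Perm.sign_swap (by simp)] at h
    exact absurd h (by decide)

lemma a1 : AWins 1 := by
  simp only [AWins, Wins, List.length_nil, if_true]
  refine ⟨0, by simp, 0, by simp, 1, 1, by simp, by simp, ?_⟩
  exact Subsingleton.elim _ _

lemma a2 : AWins 2 := by
  have h : ∀ v : Fin 2, v ∉ [] ++ [(1 : Fin 2)] → v = 0 := by decide
  have e : ¬ (([] ++ [(1 : Fin 2)]).length % 2 = 0) := by decide
  simp only [AWins, Wins, List.length_nil, if_true, iff_true]
  refine ⟨1, by simp, ?_⟩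
  rw [if_neg e]
  intro v hv
  refine ⟨1, by simp, ?_⟩
  rw [if_neg e]
  intro w hw
  rw [h v hv, h w hw]
  refine ⟨swap 0 1, swap 0 1, by decide, by decide, ?_⟩
  rw [eq_top_iff]
  intro x _
  have : ∀ x : Perm (Fin 2), x = 1 ∨ x = swap 0 1 := by decide
  rcases this x with rfl | rfl
  · exact Subgroup.one_mem _
  · exact Subgroup.subset_closure (by simp)

theorem result (N : ℕ) (hN : 1 ≤ N) : (AWins N ↔ N ≤ 2) ∧ (BWins N ↔ 3 ≤ N) := by
  have ex : AWins N → BWins N → False :=
    excl (fun s hA hB => excl (fun t h1 h2 => h2 h1) _ _ hA hB) _ _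
  have hA : N ≤ 2 → AWins N := by
    intro h
    interval_cases N
    · exact a1
    · exact a2
  refine ⟨⟨fun h => ?_, hA⟩, ⟨fun h => ?_, bwins⟩⟩
  · by_contra hc
    exact ex h (bwins (by omega))
  · by_contra hc
    exact ex (hA (by omega)) h

end Pool.Agent.Results.MP_337ab5_co.ConvOne
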